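import Mathlib

set_option autoImplicit false

namespace Pool.Agent.Results.MP_3cee42_co.NotPlain

/-- `le` is a partial order making the abelian group `A` an additive poset. -/
def IsAddPoset {A : Type} [AddCommGroup A] (le : A → A → Prop) : Prop :=
  (∀ a, le a a) ∧ (∀ a b, le a b → le b a → a = b) ∧ (∀ a b c, le a b → le b c → le a c) ∧
    (∀ a b c, le b a → le c a → le (b + c) a) ∧ ∀ a b c, le a b → le a c → le a (a + b + c)

/-- `A` embeds in the additive powerset of a finite set. -/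
def IsPlain {A : Type} [AddCommGroup A] (le : A → A → Prop) : Prop :=
  ∃ (I : Type) (_ : Finite I) (φ : A → Set I), Function.Injective φ ∧
    (∀ a b, φ (a + b) = symmDiff (φ a) (φ b)) ∧ ∀ a b, le a b ↔ φ a ⊆ φ b

abbrev V : Type := ZMod 2 × ZMod 2 × ZMod 2 × ZMod 2

def rel : List (V × V) :=
  [((1, 0, 0, 0), (0, 1, 1, 1)), ((0, 0, 1, 0), (1, 0, 0, 1)),
   ((1, 0, 1, 0), (1, 1, 0, 0)), ((0, 1, 1, 0), (1, 1, 0, 0)),
   ((0, 0, 0, 1), (0, 1, 0, 0)), ((0, 1, 0, 1), (0, 1, 0, 0)),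
   ((1, 1, 0, 1), (1, 1, 1, 0)), ((0, 0, 1, 1), (1, 1, 1, 0)),
   ((1, 0, 1, 1), (1, 0, 0, 1)), ((1, 1, 1, 1), (0, 1, 1, 1))]

def le0 (a b : V) : Prop := a = 0 ∨ a = b ∨ (a, b) ∈ rel

instance : DecidableRel le0 := fun a b => by unfold le0; infer_instance

lemma addPoset : IsAddPoset le0 := by
  refine ⟨?_, ?_, ?_, ?_, ?_⟩ <;> decide +kernel

theorem result : ∃ (A : Type) (_ : AddCommGroup A) (_ : Finite A) (le : A → A → Prop),
    IsAddPoset le ∧ ¬ IsPlain le := by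
  refine ⟨V, inferInstance, inferInstance, le0, addPoset, ?_⟩
  rintro ⟨I, -, φ, -, h1, h2⟩
  refine absurd ((h2 (1, 0, 0, 0) 0).2 fun i hi => ?_) (by decide)
  have key : ∀ f : V → Bool, (∀ a b, f (a + b) = xor (f a) (f b)) →
      (∀ a b, le0 a b → f a = true → f b = true) → f (1, 0, 0, 0) = false := by
    intro f ha ho
    have e3 : f (1, 1, 0, 0) = xor (f (1, 0, 0, 0)) (f (0, 1, 0, 0)) := ha (1, 0, 0, 0) (0, 1, 0, 0)
    have e5 : f (1, 0, 1, 0) = xor (f (1, 0, 0, 0)) (f (0, 0, 1, 0)) := ha (1, 0, 0, 0) (0, 0, 1, 0)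
    have e6 : f (0, 1, 1, 0) = xor (f (0, 1, 0, 0)) (f (0, 0, 1, 0)) := ha (0, 1, 0, 0) (0, 0, 1, 0)
    have e7 : f (1, 1, 1, 0) = xor (f (1, 0, 0, 0)) (f (0, 1, 1, 0)) := ha (1, 0, 0, 0) (0, 1, 1, 0)
    have e9 : f (1, 0, 0, 1) = xor (f (1, 0, 0, 0)) (f (0, 0, 0, 1)) := ha (1, 0, 0, 0) (0, 0, 0, 1)
    have e10 : f (0, 1, 0, 1) = xor (f (0, 1, 0, 0)) (f (0, 0, 0, 1)) := ha (0, 1, 0, 0) (0, 0, 0, 1)
    have e11 : f (1, 1, 0, 1) = xor (f (1, 0, 0, 0)) (f (0, 1, 0, 1)) := ha (1, 0, 0, 0) (0, 1, 0, 1)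
    have e12 : f (0, 0, 1, 1) = xor (f (0, 0, 1, 0)) (f (0, 0, 0, 1)) := ha (0, 0, 1, 0) (0, 0, 0, 1)
    have e13 : f (1, 0, 1, 1) = xor (f (1, 0, 0, 0)) (f (0, 0, 1, 1)) := ha (1, 0, 0, 0) (0, 0, 1, 1)
    have e14 : f (0, 1, 1, 1) = xor (f (0, 1, 0, 0)) (f (0, 0, 1, 1)) := ha (0, 1, 0, 0) (0, 0, 1, 1)
    have e15 : f (1, 1, 1, 1) = xor (f (1, 0, 0, 0)) (f (0, 1, 1, 1)) := ha (1, 0, 0, 0) (0, 1, 1, 1)
    have o0 := ho (1, 0, 0, 0) (0, 1, 1, 1) (by decide)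
    have o1 := ho (0, 0, 1, 0) (1, 0, 0, 1) (by decide)
    have o2 := ho (1, 0, 1, 0) (1, 1, 0, 0) (by decide)
    have o3 := ho (0, 1, 1, 0) (1, 1, 0, 0) (by decide)
    have o4 := ho (0, 0, 0, 1) (0, 1, 0, 0) (by decide)
    have o5 := ho (0, 1, 0, 1) (0, 1, 0, 0) (by decide)
    have o6 := ho (1, 1, 0, 1) (1, 1, 1, 0) (by decide)
    have o7 := ho (0, 0, 1, 1) (1, 1, 1, 0) (by decide)
    have o8 := ho (1, 0, 1, 1) (1, 0, 0, 1) (by decide)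
    have o9 := ho (1, 1, 1, 1) (0, 1, 1, 1) (by decide)
    simp only [e3, e5, e6, e7, e9, e10, e11, e12, e13, e14, e15] at o0 o1 o2 o3 o4 o5 o6 o7 o8 o9
    revert o0 o1 o2 o3 o4 o5 o6 o7 o8 o9
    cases f (1, 0, 0, 0) <;> cases f (0, 1, 0, 0) <;> cases f (0, 0, 1, 0) <;> cases f (0, 0, 0, 1) <;> simp
  classical
  have := key (fun a => decide (i ∈ φ a))
    (fun a b => by
      rw [h1, Set.mem_symmDiff]
      by_cases ha : i ∈ φ a <;> by_cases hb : i ∈ φ b <;> simp [ha, hb])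
    (fun a b h => by simpa using fun h' => (h2 a b).1 h h')
  simp [hi] at this

end Pool.Agent.Results.MP_3cee42_co.NotPlain
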